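import Pool.Agent.Y364.HN.Gen
import Pool.Agent.H534R3.Rot

/-!
# Large Haar null sets in groups of homeomorphisms of the sphere

Let `n ≥ 1`, and let `G` be any set (in particular any group) of homeomorphisms of the sphere `S^n`
which contains the rotations of one coordinate plane, or a conjugate of them by some homeomorphism
of the sphere: all homeomorphisms, the orientation preserving ones, the Möbius transformations, the
isometries, the homeomorphisms which preserve a given measure invariant under these rotations, ...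
Then there is one Borel probability measure on `G` such that every countable union of subsets of
`G` of small metric entropy (`N(ε) ε` tends to `0` along some sequence of radii `ε`; in particular
every countable subset of `G`) lies in a dense `G_δ` subset of `G` all of whose two-sided translates
are null. So `G` is the union of a meagre set and a Haar null set. The frozen statement is the last
assertion for the orientation preserving homeomorphisms and `n ≥ 2`.
-/

set_option autoImplicit false

open MeasureTheory Topology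

namespace Pool.Agent.Results.MP_4045d2_lc.SphereNullSets

/-- The sphere `S^n`, the unit sphere of the Euclidean space of dimension `n + 1`. -/
def Sph (n : ℕ) : Type := Metric.sphere (0 : EuclideanSpace ℝ (Fin (n + 1))) 1

/-- The Euclidean metric on the sphere. -/
noncomputable instance instMetricSpaceSph (n : ℕ) : MetricSpace (Sph n) :=
  inferInstanceAs (MetricSpace (Metric.sphere (0 : EuclideanSpace ℝ (Fin (n + 1))) 1))

instance instCompactSpaceSph (n : ℕ) : CompactSpace (Sph n) :=
  inferInstanceAs (CompactSpace (Metric.sphere (0 : EuclideanSpace ℝ (Fin (n + 1))) 1))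

/-- The `i`-th coordinate of a point of the sphere. -/
def Sph.coord {n : ℕ} (x : Sph n) (i : Fin (n + 1)) : ℝ := x.1 i

/-- The continuous self-maps of the sphere, with the uniform metric. -/
abbrev Map (n : ℕ) : Type := C(Sph n, Sph n)

/-- The group of the orientation preserving homeomorphisms of the sphere (the bijective continuous
maps homotopic to the identity), inside the space of its continuous self-maps with the topology of
uniform convergence. -/
def HomeoPlus (n : ℕ) : Set C(Sph n, Sph n) :=
  {f | Function.Bijective f ∧ f.Homotopic (ContinuousMap.id (Sph n))}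

/-- All homeomorphisms of the sphere. -/
def Homeo (n : ℕ) : Set C(Sph n, Sph n) := {f | Function.Bijective f}

/-- `f` is the rotation by the angle with cosine `c` and sine `s` in the plane of the first two
coordinates, for some `c`, `s`. -/
def IsPlaneRotation {n : ℕ} (hn : 1 ≤ n) (f : C(Sph n, Sph n)) : Prop :=
  ∃ c s : ℝ, c ^ 2 + s ^ 2 = 1 ∧ ∀ x : Sph n,
    (f x).coord ⟨0, by omega⟩ = c * x.coord ⟨0, by omega⟩ - s * x.coord ⟨1, by omega⟩ ∧
    (f x).coord ⟨1, by omega⟩ = s * x.coord ⟨0, by omega⟩ + c * x.coord ⟨1, by omega⟩ ∧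
    ∀ i : Fin (n + 1), 2 ≤ (i : ℕ) → (f x).coord i = x.coord i

/-- `S` has small entropy: for every `δ > 0` there is `ε > 0` such that `S` is covered by finitely
many balls of radius `ε` of the uniform distance whose number is less than `δ / ε`. -/
def SmallEntropy {n : ℕ} {G : Set C(Sph n, Sph n)} (S : Set G) : Prop :=
  ∀ δ : ℝ, 0 < δ → ∃ ε : ℝ, 0 < ε ∧ ∃ F : Finset C(Sph n, Sph n),
    (∀ b ∈ S, ∃ f ∈ F, dist (b : C(Sph n, Sph n)) f < ε) ∧ (F.card : ℝ) * ε < δ

/-- All two-sided translates (inside `G`) of the subset `N` of `G` are null for `μ`. -/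
def TranslatesNull {n : ℕ} {G : Set C(Sph n, Sph n)} (μ : @Measure G (borel G))
    (N : Set G) : Prop :=
  ∀ g h : G, μ {x : G | ∃ b ∈ N, x.1 = g.1.comp (b.1.comp h.1)} = 0

/-- `N` is Haar null in `G`: it lies in a Borel set all of whose two-sided translates are null for
one Borel probability measure. -/
def HaarNull {n : ℕ} {G : Set C(Sph n, Sph n)} (N : Set G) : Prop :=
  ∃ B : Set G, N ⊆ B ∧ @MeasurableSet G (borel G) B ∧
    ∃ μ : @Measure G (borel G), @IsProbabilityMeasure G (borel G) μ ∧ TranslatesNull μ B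

/-- `G` contains the maps `φ R φ⁻¹` for all rotations `R` of the first coordinate plane. -/
def ContainsRotations {n : ℕ} (hn : 1 ≤ n) (φ : Sph n ≃ₜ Sph n) (G : Set C(Sph n, Sph n)) :
    Prop :=
  ∀ f, IsPlaneRotation hn f →
    (φ : C(Sph n, Sph n)).comp (f.comp (φ.symm : C(Sph n, Sph n))) ∈ G

/-- There is one Borel probability measure on `G` such that every countable union of subsets of
small entropy of `G` is contained in a dense `G_δ` subset of `G` whose translates are all null. -/
def LargeNullSets {n : ℕ} (G : Set C(Sph n, Sph n)) : Prop :=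
  ∃ μ : @Measure G (borel G), @IsProbabilityMeasure G (borel G) μ ∧
    ∀ S : ℕ → Set G, (∀ i, SmallEntropy (S i)) →
      ∃ N : Set G, IsGδ N ∧ Dense N ∧ (∀ i, S i ⊆ N) ∧ TranslatesNull μ N

/-- `G` is the union of a meagre set and a Haar null set. -/
def MeagreUnionNull {n : ℕ} (G : Set C(Sph n, Sph n)) : Prop :=
  ∃ M N : Set G, M ∪ N = Set.univ ∧ IsMeagre M ∧ HaarNull N

/-- Every countable subset of `G` is contained in a dense Haar null `G_δ` subset of `G`. -/
def CountableInNullGδ {n : ℕ} (G : Set C(Sph n, Sph n)) : Prop :=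
  ∀ C : Set G, C.Countable → ∃ N, C ⊆ N ∧ IsGδ N ∧ Dense N ∧ HaarNull N

/-- The rotations of the first coordinate plane. -/
noncomputable def Rm {d : ℕ} (s : UnitAddCircle) : Map (d + 1) :=
  Pool.Agent.H534R3.Rot.RS (d := d) s

theorem Rm_zero {d : ℕ} : (Rm 0 : Map (d + 1)) = ContinuousMap.id _ :=
  Pool.Agent.H534R3.Rot.RS_zero

theorem Rm_add {d : ℕ} (s t : UnitAddCircle) :
    (Rm (s + t) : Map (d + 1)) = (Rm s).comp (Rm t) :=
  Pool.Agent.H534R3.Rot.RS_add s t

theorem continuous_Rm {d : ℕ} : Continuous (Rm : UnitAddCircle → Map (d + 1)) :=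
  Pool.Agent.H534R3.Rot.continuous_RS (d := d)

theorem Rm_big {d : ℕ} (g : Sph (d + 1) ≃ₜ Sph (d + 1)) :
    ∃ s, (1 : ℝ) ≤ dist ((g : Map (d + 1)).comp (Rm s)) (g : Map (d + 1)) :=
  Pool.Agent.H534R3.Rot.sphere_big (d := d) g

theorem Rm_rotation {d : ℕ} (hn : 1 ≤ d + 1) (s : UnitAddCircle) :
    IsPlaneRotation hn (Rm s : Map (d + 1)) := by
  refine ⟨Pool.Agent.H534R3.Rot.cc s, Pool.Agent.H534R3.Rot.ss s,
    Pool.Agent.H534R3.Rot.cc_sq s, fun x => ⟨?_, ?_, ?_⟩⟩
  · exact Pool.Agent.H534R3.Rot.rot_zero (d := d) _ _ _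
  · exact Pool.Agent.H534R3.Rot.rot_one (d := d) _ _ _
  · intro i hi
    obtain ⟨j, rfl⟩ : ∃ j : Fin d, i = j.succ.succ :=
      ⟨⟨(i : ℕ) - 2, by omega⟩, by ext; simp; omega⟩
    exact Pool.Agent.H534R3.Rot.rot_succ (d := d) _ _ _ _

theorem rotation_eq {d : ℕ} (hn : 1 ≤ d + 1) (f : Map (d + 1)) (hf : IsPlaneRotation hn f) :
    ∃ t, f = Rm t := by
  obtain ⟨c, s, hcs, hf⟩ := hf
  obtain ⟨t, rfl, rfl⟩ := Pool.Agent.H534R3.Rot.exists_cc_ss hcs
  refine ⟨t, ?_⟩
  ext1 x
  apply Subtype.ext
  obtain ⟨h0, h1, h2⟩ := hf x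
  exact Pool.Agent.H534R3.Rot.ext_coords (d := d) h0 h1 fun i => h2 i.succ.succ (by simp)

theorem main (n : ℕ) (hn : 1 ≤ n) (G : Set C(Sph n, Sph n)) (hG : G ⊆ Homeo n)
    (φ : Sph n ≃ₜ Sph n) (hφ : ContainsRotations hn φ G) : LargeNullSets G := by
  obtain ⟨d, rfl⟩ : ∃ d, n = d + 1 := ⟨n - 1, by omega⟩
  set R : UnitAddCircle → Map (d + 1) := fun s =>
    (φ : Map (d + 1)).comp ((Rm s).comp (φ.symm : Map (d + 1))) with hR
  obtain ⟨μ, h1, h2⟩ := Pool.Agent.Y364.HN.large (X := Sph (d + 1)) G hG R
    ((ContinuousMap.continuous_postcomp _).comp ((ContinuousMap.continuous_precomp _).comp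
      continuous_Rm))
    (fun s => hφ _ (Rm_rotation hn s))
    (by
      ext1 x
      change φ (Rm 0 (φ.symm x)) = x
      rw [Rm_zero]
      exact φ.apply_symm_apply x)
    (by
      intro s t
      ext1 x
      change φ (Rm (s + t) (φ.symm x)) = φ (Rm s (φ.symm (φ (Rm t (φ.symm x)))))
      rw [Rm_add, φ.symm_apply_apply]
      rfl)
    1 one_pos
    (by
      intro g
      obtain ⟨s, hs⟩ := Rm_big (d := d) (φ.trans g)
      refine ⟨s, hs.trans ?_⟩
      rw [ContinuousMap.dist_le dist_nonneg]
      intro x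
      have h3 := ContinuousMap.dist_apply_le_dist
        (f := (g : Map (d + 1)).comp (R s)) (g := (g : Map (d + 1))) (φ x)
      have h4 : ((g : Map (d + 1)).comp (R s)) (φ x) = g (φ (Rm s x)) := by
        change g (φ (Rm s (φ.symm (φ x)))) = _
        rw [φ.symm_apply_apply]
      rw [h4] at h3
      exact h3)
    (borel G) rfl
  refine ⟨μ, h1, fun S hS => ?_⟩
  refine h2 S fun i δ hδ => ?_
  obtain ⟨ε, hε, F, hF, hc⟩ := hS i δ hδ
  refine ⟨ε, hε, F, ?_, hc⟩
  rintro _ ⟨b, hb, rfl⟩
  exact hF b hb

/-- A set of homeomorphisms with the property of `main` is the union of a meagre set and a Haar null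
set. -/
theorem decomposition {n : ℕ} {G : Set C(Sph n, Sph n)} (h : LargeNullSets G) :
    MeagreUnionNull G := by
  obtain ⟨μ, h1, h2⟩ := h
  obtain ⟨N, hN, hd, -, ht⟩ := h2 (fun _ => ∅) (fun _ δ hδ => ⟨1, one_pos, ∅, by simp, by simpa⟩)
  refine ⟨Nᶜ, N, Set.compl_union_self N, ?_, N, le_refl _, ?_, μ, h1, ht⟩
  · rw [IsMeagre, compl_compl]
    exact residual_of_dense_Gδ hN hd
  · let _ : MeasurableSpace G := borel G
    have : BorelSpace G := ⟨rfl⟩
    exact hN.measurableSet

theorem countable {n : ℕ} {G : Set C(Sph n, Sph n)} (h : LargeNullSets G) :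
    CountableInNullGδ G := by
  obtain ⟨μ, h1, h2⟩ := h
  intro C hC
  rcases C.eq_empty_or_nonempty with rfl | hne
  · obtain ⟨N, hN, hd, -, ht⟩ := h2 (fun _ => ∅)
      (fun _ δ hδ => ⟨1, one_pos, ∅, by simp, by simpa⟩)
    refine ⟨N, Set.empty_subset _, hN, hd, N, le_refl _, ?_, μ, h1, ht⟩
    let _ : MeasurableSpace G := borel G
    have : BorelSpace G := ⟨rfl⟩
    exact hN.measurableSet
  · obtain ⟨e, he⟩ := hC.exists_eq_range hne
    obtain ⟨N, hN, hd, hs, ht⟩ := h2 (fun i => {e i}) (fun i δ hδ =>
      ⟨δ / 2, by positivity, {(e i : C(Sph n, Sph n))}, by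
        intro b hb
        rw [Set.mem_singleton_iff.1 hb]
        exact ⟨_, Finset.mem_singleton_self _, by rw [dist_self]; positivity⟩, by
        simp only [Finset.card_singleton, Nat.cast_one, one_mul]; linarith⟩)
    refine ⟨N, ?_, hN, hd, N, le_refl _, ?_, μ, h1, ht⟩
    · rw [he]
      rintro _ ⟨i, rfl⟩
      exact hs i rfl
    · let _ : MeasurableSpace G := borel G
      have : BorelSpace G := ⟨rfl⟩
      exact hN.measurableSet

/-- **Theorem.**
1. Let `n ≥ 1` and let `G` be a set of homeomorphisms of the sphere `S^n` which contains `φ R φ⁻¹`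
   for the rotations `R` of the first coordinate plane, where `φ` is some homeomorphism of the
   sphere. There is a Borel probability measure `μ` on `G` such that all countable unions of sets of
   small entropy lie in dense `G_δ` subsets of `G` all of whose translates are null for `μ`.
   So `G` is the union of a meagre set and a Haar null set, and every countable subset of `G` lies in
   a dense Haar null `G_δ` set.
2. In particular, for every `n ≥ 1`, the group of the orientation preserving homeomorphisms of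
   `S^n` and the group of all homeomorphisms of `S^n` are unions of a meagre set and a Haar null
   set. -/
theorem result :
    (∀ (n : ℕ) (hn : 1 ≤ n) (G : Set C(Sph n, Sph n)), G ⊆ Homeo n →
      ∀ φ : Sph n ≃ₜ Sph n, ContainsRotations hn φ G →
        LargeNullSets G ∧ MeagreUnionNull G ∧ CountableInNullGδ G) ∧
    ∀ n : ℕ, 1 ≤ n → MeagreUnionNull (HomeoPlus n) ∧ MeagreUnionNull (Homeo n) := by
  have hA : ∀ (n : ℕ) (hn : 1 ≤ n) (f : C(Sph n, Sph n)), IsPlaneRotation hn f →
      f ∈ HomeoPlus n := by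
    intro n hn f hf
    obtain ⟨d, rfl⟩ : ∃ d, n = d + 1 := ⟨n - 1, by omega⟩
    obtain ⟨t, rfl⟩ := rotation_eq hn f hf
    exact ⟨Pool.Agent.H534R3.Rot.RS_bijective t, Pool.Agent.H534R3.Rot.RS_homotopic t⟩
  have hB : ∀ (n : ℕ), HomeoPlus n ⊆ Homeo n := fun n f hf => hf.1
  have hid : ∀ (n : ℕ) (f : C(Sph n, Sph n)),
      ((Homeomorph.refl (Sph n) : Sph n ≃ₜ Sph n) : C(Sph n, Sph n)).comp
        (f.comp ((Homeomorph.refl (Sph n)).symm : C(Sph n, Sph n))) = f := by
    intro n f
    ext1 x
    rfl
  refine ⟨fun n hn G hG φ hφ => ?_, fun n hn => ⟨?_, ?_⟩⟩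
  · have h := main n hn G hG φ hφ
    exact ⟨h, decomposition h, countable h⟩
  · exact decomposition (main n hn (HomeoPlus n) (hB n) (Homeomorph.refl _)
      (fun f hf => by rw [hid]; exact hA n hn f hf))
  · exact decomposition (main n hn (Homeo n) (fun _ h => h) (Homeomorph.refl _)
      (fun f hf => by rw [hid]; exact hB n (hA n hn f hf)))

end Pool.Agent.Results.MP_4045d2_lc.SphereNullSets
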